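import Pool.Agent.helper83.GR.Spec
import Pool.Agent.helper6.DI.B4

set_option autoImplicit false

namespace Pool.Agent.GR

open Pool.Agent.helper58.DC Pool.Agent.DI

theorem SCH : SCH_stmt := by
  intro G _ _ H ψ hψ x hx y
  obtain ⟨h0, hI⟩ := hψ
  by_cases hy : y ∈ H
  · have h := B4 H (fun h : H => ψ (h : G)) hI ⟨x, hx⟩ ⟨y, hy⟩
    have e1 : ∑ᶠ t ∈ (H : Set G), ψ (x * (t * y * t⁻¹)) =
        ∑ᶠ t : H, ψ (x * ((t : G) * y * (t : G)⁻¹)) := by
      rw [← finsum_mem_univ, finsum_mem_univ]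
      exact (finsum_set_coe_eq_finsum_mem (H : Set G)).symm
    rw [e1]
    simpa using h
  · have e1 : ∑ᶠ t ∈ (H : Set G), ψ (x * (t * y * t⁻¹)) = 0 := by
      apply finsum_mem_eq_zero_of_forall_eq_zero
      intro t ht
      apply h0
      intro hc
      apply hy
      have h1 : t * y * t⁻¹ ∈ H := (H.mul_mem_cancel_left hx).1 hc
      have h2 : t⁻¹ * (t * y * t⁻¹) * t ∈ H := H.mul_mem (H.mul_mem (H.inv_mem ht) h1) ht
      have h3 : t⁻¹ * (t * y * t⁻¹) * t = y := by group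
      rwa [h3] at h2
    rw [e1, h0 y hy]
    simp

end Pool.Agent.GR
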