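import Pool.Agent.helper88.GR.Spec

/-!
# Project gr, module CEL: the cells
-/

set_option autoImplicit false

open Complex Metric Set Filter Topology MeasureTheory
open MPS (om)
open PPS (pre TT fd)
open XPS (Df er dens tau)

noncomputable section

namespace GR

theorem CEL (hNAT : NAT_stmt) (hTOP : TOP_stmt) (hKNV : KNV_stmt) (hDIS : DIS_stmt) : CEL_stmt := by
  intro C n c p q G hK hR hT hX
  have hC1 : 1 ≤ C := hK.1
  obtain ⟨-, -, -, -, -, -, -, -, -, -, hN⟩ := hNAT n c hR.hn
  obtain ⟨hRpos, -, hX1, hRX, hA, -, -⟩ := hN p q hR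
  obtain ⟨-, hinj, -, -, hder⟩ := hTOP n c p q G hR hT
  have hp1 : 1 ≤ p := hR.q1.trans hR.qp.le
  have hApos : 0 < ‖A n c p‖ := norm_pos_iff.2 (hA p hp1 (by omega))
  have hCpos : 0 < C := by linarith
  have hXpos : 0 < X n c p q := by linarith
  have hZp0 : 0 ≤ ‖Z n c p‖ := norm_nonneg _
  have hZp : ‖Z n c p‖ ≤ R n c q / (16 * C) := by
    rw [le_div_iff₀ (by positivity), hRX, mul_comm]
    exact mul_le_mul_of_nonneg_right hX hZp0
  have hZp2 : R n c q / (16 * C) ≤ R n c q / 16 := by
    apply div_le_div_of_nonneg_left hRpos.le (by norm_num)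
    linarith
  have hballs : ball (Z n c p) (R n c q / (16 * C)) ⊆ ball 0 (R n c q / (8 * C)) := by
    apply ball_subset_ball'
    rw [dist_zero_right]
    have : R n c q / (8 * C) = R n c q / (16 * C) + R n c q / (16 * C) := by
      field_simp
      norm_num
    linarith
  have hball8 : R n c q / (8 * C) ≤ R n c q := by
    rw [div_le_iff₀ (by positivity)]
    nlinarith
  have hballR : ball (0 : ℂ) (R n c q / (8 * C)) ⊆ ball 0 (R n c q) := ball_subset_ball hball8
  -- the cells
  have hcell : ∀ j ∈ Finset.Icc 1 p, ball (Z n c j) (sg C n c p q * ‖A n c j‖) ⊆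
      G (p - j) '' ball 0 (R n c q / (8 * C)) := by
    intro j hj
    rw [Finset.mem_Icc] at hj
    have hm : p - j < p := by omega
    have hpj : p - (p - j) = j := by omega
    have h1 := hK.2 (G (p - j)) (Z n c p) (R n c q / (16 * C)) (by positivity)
      ((hT.diff _ hm).mono (hballs.trans hballR)) ((hinj _ hm).mono (hballs.trans hballR))
    rw [hT.val _ hm, hder _ hm, hpj] at h1
    have h2 : R n c q / (16 * C) * ‖A n c j / A n c p‖ / C = sg C n c p q * ‖A n c j‖ := by
      unfold sg
      rw [norm_div]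
      field_simp
    rw [h2] at h1
    exact h1.trans (image_mono hballs)
  have hsg : 0 < sg C n c p q := by
    unfold sg
    positivity
  refine ⟨?_, ?_⟩
  · intro i hi j hj hij
    have hi' := Finset.mem_Icc.1 hi
    have hj' := Finset.mem_Icc.1 hj
    have hdis := hDIS C n c p q G hK hR hT hX (p - i) (by omega) (p - j) (by omega) (by omega)
    have h3 := hdis.mono (hcell i hi) (hcell j hj)
    have hAi : 0 < ‖A n c i‖ := norm_pos_iff.2 (hA i hi'.1 (by omega))
    have hAj : 0 < ‖A n c j‖ := norm_pos_iff.2 (hA j hj'.1 (by omega))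
    rw [disjoint_ball_ball_iff (by positivity) (by positivity)] at h3
    rw [mul_add, ← dist_eq_norm]
    exact h3
  · have hm : p - q < p := by have := hR.q1; have := hR.qp; omega
    have hpq : p - (p - q) = q := by have := hR.q1; have := hR.qp; omega
    have hne : ∀ w ∈ ball (0 : ℂ) (R n c q), G (p - q) w ≠ 0 := by
      intro w hw
      have hq1 := hR.q1
      have hqp := hR.qp
      have h4 := (hT.rel (p - q - 1) (by omega) w hw).2
      have h5 : p - q - 1 + 1 = p - q := by omega
      rwa [h5] at h4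
    have h6 := (hKNV C (R n c q) (G (p - q)) hK hRpos (hT.diff _ hm) (hinj _ hm) hne).1 (Z n c p) (by
      rw [mem_ball_zero_iff]
      have : R n c q / 16 < R n c q := by linarith
      linarith)
    rw [hT.val _ hm, hder _ hm, hpq, norm_div] at h6
    have h7 : ‖Z n c q‖ = R n c q := rfl
    rw [h7] at h6
    have hAq : ‖A n c q‖ ≤ 2 * C * ‖A n c p‖ := by
      have h8 : ‖A n c q‖ / ‖A n c p‖ * (R n c q / 2) ≤ C * R n c q := by
        refine le_trans ?_ h6
        apply mul_le_mul_of_nonneg_left _ (by positivity)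
        linarith
      have h9 : ‖A n c q‖ / ‖A n c p‖ ≤ 2 * C := by
        by_contra hcon
        push Not at hcon
        nlinarith
      rwa [div_le_iff₀ hApos] at h9
    refine ⟨hAq, ?_⟩
    unfold lam
    rw [norm_div, norm_mul, norm_mul, h7]
    have hX' : X n c p q = R n c q / ‖Z n c p‖ := rfl
    have hZppos : 0 < ‖Z n c p‖ := norm_pos_iff.2 (hR.ne0 p hp1 le_rfl)
    rw [hX', div_div_eq_mul_div, div_le_div_iff₀ (by positivity) hRpos]
    have h10 : ‖Z n c p‖ * ‖A n c q‖ ≤ ‖Z n c p‖ * (2 * C * ‖A n c p‖) :=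
      mul_le_mul_of_nonneg_left hAq hZp0
    calc ‖Z n c p‖ * ‖A n c q‖ * R n c q ≤ ‖Z n c p‖ * (2 * C * ‖A n c p‖) * R n c q :=
          mul_le_mul_of_nonneg_right h10 hRpos.le
      _ = 2 * C * ‖Z n c p‖ * (R n c q * ‖A n c p‖) := by ring

end GR
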